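import Pool.Agent.H41.HYP.S2

/-!
# HYP, row EV0: the local ring of `O[x]/(f)` at `(π, γ)` is a discrete valuation ring
-/

set_option autoImplicit false

namespace Pool.HYP

open Polynomial Matrix Pool.AVS

namespace EVZ

section Basic

variable {L : Type} [Field L] {O : ValuationSubring L} {π : L}

theorem residue_zero_iff (hL : Loc L O π) (ϖ : O) (hϖ : (ϖ : L) = π) (x : O) :
    IsLocalRing.residue O x = 0 ↔ ϖ ∣ x := by
  rw [IsLocalRing.residue_eq_zero_iff, IsLocalRing.mem_maximalIdeal, mem_nonunits_iff]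
  by_cases hx : (x : L) = 0
  · have hx0 : x = 0 := Subtype.ext hx
    subst hx0
    simp
  · have h1 := hL.unif (x : L) x.2 hx
    have h2 : IsUnit x ↔ (x : L)⁻¹ ∈ O := by
      constructor
      · rintro ⟨u, rfl⟩
        have : ((u : O) : L) * ((u⁻¹ : Oˣ) : O) = 1 := by
          rw [← MulMemClass.coe_mul, u.mul_inv]
          rfl
        rw [inv_eq_of_mul_eq_one_right this]
        exact ((u⁻¹ : Oˣ) : O).2
      · intro h
        refine IsUnit.of_mul_eq_one (⟨(x : L)⁻¹, h⟩ : O) ?_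
        apply Subtype.ext
        simp [hx]
    rw [h2, h1]
    constructor
    · intro h
      refine ⟨⟨(x : L) / π, h⟩, ?_⟩
      apply Subtype.ext
      simp only [MulMemClass.coe_mul, hϖ]
      field_simp [hL.pi_ne]
    · rintro ⟨y, rfl⟩
      simp only [MulMemClass.coe_mul, hϖ]
      rw [mul_div_assoc, mul_comm, div_mul_cancel₀ _ hL.pi_ne]
      exact y.2

theorem rd_zero_iff (hL : Loc L O π) (ϖ : O) (hϖ : (ϖ : L) = π) (p : O[X]) :
    rd O p = 0 ↔ C ϖ ∣ p := by
  rw [C_dvd_iff_dvd_coeff]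
  constructor
  · intro h i
    rw [← residue_zero_iff hL ϖ hϖ]
    have := congrArg (fun q => q.coeff i) h
    simpa [coeff_map] using this
  · intro h
    ext i
    rw [coeff_map, (residue_zero_iff hL ϖ hϖ _).2 (h i), coeff_zero]

theorem clear (hL : Loc L O π) (p : L[X]) : ∃ (N : ℕ) (q : O[X]), C (π ^ N) * p = oL O q := by
  induction p using Polynomial.induction_on' with
  | add p q hp hq =>
    obtain ⟨N, p', hp'⟩ := hp
    obtain ⟨M, q', hq'⟩ := hq
    refine ⟨N + M, C ((⟨π, hL.pi_mem⟩ : O) ^ M) * p' + C ((⟨π, hL.pi_mem⟩ : O) ^ N) * q', ?_⟩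
    simp only [oL, Polynomial.map_add, Polynomial.map_mul, Polynomial.map_C] at hp' hq' ⊢
    rw [← hp', ← hq']
    have h1 : (algebraMap O L) ((⟨π, hL.pi_mem⟩ : O) ^ M) = π ^ M := by
      rw [map_pow]; rfl
    have h2 : (algebraMap O L) ((⟨π, hL.pi_mem⟩ : O) ^ N) = π ^ N := by
      rw [map_pow]; rfl
    rw [h1, h2, pow_add, C_mul]
    ring
  | monomial n a =>
    by_cases ha : a = 0
    · refine ⟨0, 0, ?_⟩
      simp [ha]
    obtain ⟨m, hm, -⟩ := hL.arch a ha
    refine ⟨m.natAbs, monomial n ⟨π ^ m.natAbs * a, ?_⟩, ?_⟩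
    · have h1 : π ^ m.natAbs * a = π ^ ((m.natAbs : ℤ) + m) * (a / π ^ m) := by
        rw [zpow_add₀ hL.pi_ne, zpow_natCast]
        have : π ^ m ≠ 0 := zpow_ne_zero _ hL.pi_ne
        field_simp
      rw [h1]
      refine O.mul_mem _ _ ?_ hm
      have h2 : 0 ≤ (m.natAbs : ℤ) + m := by omega
      obtain ⟨j, hj⟩ := Int.eq_ofNat_of_zero_le h2
      rw [hj, zpow_natCast]
      exact O.toSubring.pow_mem hL.pi_mem j
    · simp only [oL, Polynomial.map_monomial, C_mul_monomial]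
      rfl

theorem dvd_iff (O : ValuationSubring L) {f : O[X]} (hf : f.Monic) (p : O[X]) :
    oL O f ∣ oL O p ↔ f ∣ p :=
  Polynomial.map_dvd_map (algebraMap O L) (FaithfulSMul.algebraMap_injective O L) hf

end Basic

/-- The data of the local ring. -/
structure Dat {L : Type} [Field L] (O : ValuationSubring L) (ϖ : O) (f γ u : O[X]) : Prop where
  c1 : ∃ s : O[X], IsCoprime (rd O s) (rd O γ) ∧ ∀ p : O[X], rd O γ ∣ rd O p →
    ∃ b : O[X], AdjoinRoot.mk f (s * p) = AdjoinRoot.mk f (u * b)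
  c2 : ∀ x : AdjoinRoot f, AdjoinRoot.mk f u * x = 0 → x = 0
  c3 : ∀ s b : O[X], IsCoprime (rd O s) (rd O γ) →
    AdjoinRoot.mk f s = AdjoinRoot.mk f (u * b) → False
  c4 : ∃ (e : ℕ) (s t : O[X]), IsCoprime (rd O s) (rd O γ) ∧ IsCoprime (rd O t) (rd O γ) ∧
    AdjoinRoot.mk f (s * C ϖ) = AdjoinRoot.mk f (t * u ^ e)

section Core

variable {L : Type} [Field L] {O : ValuationSubring L} {π : L}

theorem dat (hL : Loc L O π) (ϖ : O) (hϖ : (ϖ : L) = π) (f γ : O[X]) (hf : f.Monic)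
    (hγ : γ.Monic) (hirr : Irreducible (rd O γ)) (hdvd : rd O γ ∣ rd O f)
    (hns : ¬ InSq ϖ f γ) : Dat O ϖ f γ (unf O ϖ f γ) := by
  classical
  have hlift : ∀ q : (IsLocalRing.ResidueField O)[X], ∃ p : O[X], rd O p = q := fun q =>
    Polynomial.map_surjective _ IsLocalRing.residue_surjective q
  have hcop : ∀ p : O[X], IsCoprime (rd O p) (rd O γ) ↔ ¬ rd O γ ∣ rd O p := fun p => by
    rw [isCoprime_comm]; exact hirr.coprime_iff_not_dvd
  have hϖ0 : ϖ ≠ 0 := by
    rintro rfl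
    exact hL.pi_ne (by rw [← hϖ]; rfl)
  have hrϖ : rd O (C ϖ) = 0 := (rd_zero_iff hL ϖ hϖ _).2 dvd_rfl
  have hmem : ∀ p : O[X], rd O γ ∣ rd O p → ∃ p1 p2 : O[X], p = γ * p1 + C ϖ * p2 := by
    rintro p ⟨q, hq⟩
    obtain ⟨p1, hp1⟩ := hlift q
    have h0 : rd O (p - γ * p1) = 0 := by
      simp only [rd, Polynomial.map_sub, Polynomial.map_mul] at hq hp1 ⊢
      rw [hq, hp1, sub_self]
    obtain ⟨p2, hp2⟩ := (rd_zero_iff hL ϖ hϖ _).1 h0
    exact ⟨p1, p2, by rw [← hp2]; ring⟩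
  have hrf : (rd O f).Monic := hf.map _
  have hrγ : (rd O γ).Monic := hγ.map _
  -- the decomposition of `f`
  have hfin : FiniteMultiplicity (rd O γ) (rd O f) :=
    FiniteMultiplicity.of_not_isUnit hirr.not_isUnit hrf.ne_zero
  obtain ⟨ρ, hρ, hρ2⟩ := hfin.exists_eq_pow_mul_and_not_dvd
  set e := multiplicity (rd O γ) (rd O f) with he
  obtain ⟨r, hr⟩ := hlift ρ
  have he1 : 1 ≤ e := by
    by_contra hlt
    have : e = 0 := by omega
    rw [this, pow_zero, one_mul] at hρ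
    exact hρ2 (hρ ▸ hdvd)
  obtain ⟨β, hβ⟩ : ∃ β : O[X], f = γ ^ e * r + C ϖ * β := by
    have h0 : rd O (f - γ ^ e * r) = 0 := by
      simp only [rd, Polynomial.map_sub, Polynomial.map_mul, Polynomial.map_pow] at hρ hr ⊢
      rw [hρ, hr, sub_self]
    obtain ⟨p2, hp2⟩ := (rd_zero_iff hL ϖ hϖ _).1 h0
    exact ⟨p2, by rw [← hp2]; ring⟩
  have hrS : IsCoprime (rd O r) (rd O γ) := by
    rw [hcop, hr]; exact hρ2
  have hmkf : AdjoinRoot.mk f f = 0 := AdjoinRoot.mk_self
  have hrel : AdjoinRoot.mk f γ ^ e * AdjoinRoot.mk f r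
      + AdjoinRoot.mk f (C ϖ) * AdjoinRoot.mk f β = 0 := by
    have := congrArg (AdjoinRoot.mk f) hβ
    rw [hmkf, map_add, map_mul, map_mul, map_pow] at this
    exact this.symm
  have hcase : (rd O γ) ^ 2 ∣ rd O f ↔ 2 ≤ e := by
    constructor
    · intro h
      exact (hfin.pow_dvd_iff_le_multiplicity).1 h
    · intro h
      exact (hfin.pow_dvd_iff_le_multiplicity).2 h
  have hnϖ : ∀ x : AdjoinRoot f, AdjoinRoot.mk f (C ϖ) * x = 0 → x = 0 := by
    intro x hx
    obtain ⟨p, rfl⟩ := AdjoinRoot.mk_surjective x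
    rw [← map_mul, AdjoinRoot.mk_eq_zero] at hx
    obtain ⟨q, hq⟩ := hx
    have h0 : rd O f * rd O q = 0 := by
      have := congrArg (rd O) hq
      simp only [rd, Polynomial.map_mul] at this hrϖ ⊢
      rw [← this, hrϖ, zero_mul]
    have h1 : rd O q = 0 := by
      rcases mul_eq_zero.1 h0 with h | h
      · exact absurd h hrf.ne_zero
      · exact h
    obtain ⟨q', rfl⟩ := (rd_zero_iff hL ϖ hϖ _).1 h1
    rw [AdjoinRoot.mk_eq_zero]
    refine ⟨q', ?_⟩
    have hC : (C ϖ : O[X]) ≠ 0 := by simpa using hϖ0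
    apply mul_left_cancel₀ hC
    rw [hq]; ring
  by_cases h2 : 2 ≤ e
  · have hu : unf O ϖ f γ = γ := by
      unfold unf; rw [if_pos (hcase.2 h2)]
    rw [hu]
    have hβS : IsCoprime (rd O β) (rd O γ) := by
      rw [hcop]
      intro hd
      obtain ⟨b, c, hbc⟩ := hmem β hd
      apply hns
      refine ⟨γ ^ (e - 2) * r, b, c, ?_⟩
      rw [hβ, hbc]
      have : γ ^ e = γ ^ 2 * γ ^ (e - 2) := by rw [← pow_add]; congr 1; omega
      rw [this]
      simp only [C_pow]
      ring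
    refine ⟨⟨β, hβS, ?_⟩, ?_, ?_, ?_⟩
    · intro p hp
      obtain ⟨p1, p2, rfl⟩ := hmem p hp
      refine ⟨β * p1 - γ ^ (e - 1) * r * p2, ?_⟩
      have h1 : AdjoinRoot.mk f γ ^ e = AdjoinRoot.mk f γ * AdjoinRoot.mk f γ ^ (e - 1) := by
        rw [← pow_succ']; congr 1; omega
      rw [h1] at hrel
      simp only [map_mul, map_add, map_sub, map_pow]
      linear_combination AdjoinRoot.mk f p2 * hrel
    · intro x hx
      -- multiply: `ϖ β x = - γ^e r x = 0`
      have h1 : AdjoinRoot.mk f (C ϖ) * (AdjoinRoot.mk f β * x) = 0 := by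
        have h3 : AdjoinRoot.mk f γ ^ e = AdjoinRoot.mk f γ * AdjoinRoot.mk f γ ^ (e - 1) := by
          rw [← pow_succ']; congr 1; omega
        rw [h3] at hrel
        linear_combination x * hrel - AdjoinRoot.mk f γ ^ (e - 1) * AdjoinRoot.mk f r * hx
      have h2' := hnϖ _ h1
      -- `β x = 0` and `γ x = 0`, `β` and `γ` coprime modulo `ϖ`
      obtain ⟨a, b, hab⟩ := hβS
      obtain ⟨a', ha'⟩ := hlift a
      obtain ⟨b', hb'⟩ := hlift b
      have h4 : rd O (1 - (a' * β + b' * γ)) = 0 := by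
        simp only [rd, Polynomial.map_sub, Polynomial.map_add, Polynomial.map_mul,
          Polynomial.map_one] at ha' hb' hab ⊢
        rw [ha', hb', hab, sub_self]
      obtain ⟨c, hc⟩ := (rd_zero_iff hL ϖ hϖ _).1 h4
      -- `x = ϖ c x`, so `x = 0` by Nakayama
      have h5 : x = AdjoinRoot.mk f (C ϖ * c) * x := by
        have h6 := congrArg (AdjoinRoot.mk f) hc
        rw [map_sub, map_one, map_add, map_mul, map_mul] at h6
        rw [← h6]
        linear_combination AdjoinRoot.mk f a' * h2' + AdjoinRoot.mk f b' * hx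
      have := hf.finite_adjoinRoot
      have hN : (LinearMap.range (LinearMap.mulLeft O x)).FG := by
        rw [LinearMap.range_eq_map]
        exact Module.Finite.fg_top.map _
      have hle : LinearMap.range (LinearMap.mulLeft O x) ≤
          IsLocalRing.maximalIdeal O • LinearMap.range (LinearMap.mulLeft O x) := by
        rintro y ⟨z, rfl⟩
        have h6 : LinearMap.mulLeft O x z = ϖ • (x * (AdjoinRoot.mk f c * z)) := by
          rw [LinearMap.mulLeft_apply, Algebra.smul_def]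
          conv_lhs => rw [h5]
          rw [map_mul, AdjoinRoot.mk_C]
          have : (algebraMap O (AdjoinRoot f)) ϖ = AdjoinRoot.of f ϖ := rfl
          rw [this]
          ring
        rw [h6]
        refine Submodule.smul_mem_smul ?_ ⟨AdjoinRoot.mk f c * z, rfl⟩
        rw [← IsLocalRing.residue_eq_zero_iff, residue_zero_iff hL ϖ hϖ]
      have hbot := Submodule.eq_bot_of_le_smul_of_le_jacobson_bot _ _ hN hle
        (by rw [IsLocalRing.jacobson_eq_maximalIdeal ⊥ bot_ne_top])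
      have hx1 : x ∈ LinearMap.range (LinearMap.mulLeft O x) := ⟨1, by simp⟩
      rw [hbot] at hx1
      simpa using hx1
    · intro s b hs hsb
      rw [AdjoinRoot.mk_eq_mk] at hsb
      rw [hcop] at hs
      apply hs
      have h1 : rd O f ∣ rd O (s - γ * b) := Polynomial.map_dvd _ hsb
      have h3 : rd O γ ∣ rd O (s - γ * b) := hdvd.trans h1
      simp only [rd, Polynomial.map_sub, Polynomial.map_mul] at h3 ⊢
      have h4 := dvd_add h3 (dvd_mul_right (Polynomial.map (IsLocalRing.residue O) γ)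
        (Polynomial.map (IsLocalRing.residue O) b))
      simpa using h4
    · refine ⟨e, β, -r, hβS, ?_, ?_⟩
      · simp only [rd, Polynomial.map_neg] at hrS ⊢
        exact hrS.neg_left
      · simp only [map_mul, map_neg, map_pow]
        linear_combination hrel
  · have he2 : e = 1 := by omega
    have hu : unf O ϖ f γ = C ϖ := by
      unfold unf; rw [if_neg (fun h => h2 (hcase.1 h))]
    rw [hu]
    rw [he2, pow_one] at hrel
    refine ⟨⟨r, hrS, ?_⟩, hnϖ, ?_, ?_⟩
    · intro p hp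
      obtain ⟨p1, p2, rfl⟩ := hmem p hp
      refine ⟨r * p2 - β * p1, ?_⟩
      simp only [map_mul, map_add, map_sub]
      linear_combination AdjoinRoot.mk f p1 * hrel
    · intro s b hs hsb
      rw [AdjoinRoot.mk_eq_mk] at hsb
      rw [hcop] at hs
      apply hs
      have h1 : rd O f ∣ rd O (s - C ϖ * b) := Polynomial.map_dvd _ hsb
      have h3 : rd O γ ∣ rd O (s - C ϖ * b) := hdvd.trans h1
      have h4 : rd O (s - C ϖ * b) = rd O s := by
        simp only [rd, Polynomial.map_sub, Polynomial.map_mul] at hrϖ ⊢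
        rw [hrϖ, zero_mul, sub_zero]
      rwa [h4] at h3
    · refine ⟨1, 1, 1, ?_, ?_, ?_⟩
      · simpa [rd] using isCoprime_one_left
      · simpa [rd] using isCoprime_one_left
      · simp

theorem cop_mul {a b c : (IsLocalRing.ResidueField O)[X]} (h1 : IsCoprime a c)
    (h2 : IsCoprime b c) : IsCoprime (a * b) c := h1.mul_left h2

theorem rd_mul (p q : O[X]) : rd O (p * q) = rd O p * rd O q := Polynomial.map_mul _

theorem rd_pow (p : O[X]) (n : ℕ) : rd O (p ^ n) = rd O p ^ n := Polynomial.map_pow _ n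

theorem Dat.powc2 {ϖ : O} {f γ u : O[X]} (D : Dat O ϖ f γ u) (n : ℕ) (x : AdjoinRoot f)
    (h : AdjoinRoot.mk f u ^ n * x = 0) : x = 0 := by
  induction n with
  | zero => simpa using h
  | succ n ih =>
    apply ih
    apply D.c2
    rw [← h]; ring

theorem Dat.exists_order {ϖ : O} {f γ u : O[X]} (hirr : Irreducible (rd O γ))
    (D : Dat O ϖ f γ u) (p a : O[X]) (N : ℕ)
    (h : AdjoinRoot.mk f (p * a) = AdjoinRoot.mk f (C ϖ) ^ N) :
    ∃ (s b : O[X]) (m : ℕ), IsCoprime (rd O s) (rd O γ) ∧ IsCoprime (rd O b) (rd O γ) ∧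
      AdjoinRoot.mk f (s * p) = AdjoinRoot.mk f (b * u ^ m) := by
  classical
  have hcop : ∀ p : O[X], IsCoprime (rd O p) (rd O γ) ↔ ¬ rd O γ ∣ rd O p := fun p => by
    rw [isCoprime_comm]; exact hirr.coprime_iff_not_dvd
  by_contra hno
  obtain ⟨s0, hs0, hstep⟩ := D.c1
  have hall : ∀ n : ℕ, ∃ s b : O[X], IsCoprime (rd O s) (rd O γ) ∧
      AdjoinRoot.mk f (s * p) = AdjoinRoot.mk f (b * u ^ n) := by
    intro n
    induction n with
    | zero => exact ⟨1, p, by simpa [rd] using isCoprime_one_left, by simp⟩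
    | succ n ih =>
      obtain ⟨s, b, hs, hsb⟩ := ih
      have hb : rd O γ ∣ rd O b := by
        by_contra hb
        exact hno ⟨s, b, n, hs, (hcop b).2 hb, hsb⟩
      obtain ⟨b', hb'⟩ := hstep b hb
      refine ⟨s0 * s, b', ?_, ?_⟩
      · rw [rd_mul]; exact cop_mul hs0 hs
      · simp only [map_mul, map_pow] at hsb hb' ⊢
        rw [pow_succ]
        linear_combination AdjoinRoot.mk f s0 * hsb + AdjoinRoot.mk f u ^ n * hb'
  obtain ⟨e, s1, t1, hs1, ht1, hst⟩ := D.c4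
  obtain ⟨s, b, hs, hsb⟩ := hall (e * N + 1)
  -- `s p a = s ϖ^N`, times `s1^N`
  have hst' : AdjoinRoot.mk f s1 ^ N * AdjoinRoot.mk f (C ϖ) ^ N =
      AdjoinRoot.mk f t1 ^ N * AdjoinRoot.mk f u ^ (e * N) := by
    simp only [map_mul, map_pow] at hst
    rw [← mul_pow, hst, mul_pow, pow_mul]
  have h1 : AdjoinRoot.mk f u ^ (e * N) *
      (AdjoinRoot.mk f (s * t1 ^ N) - AdjoinRoot.mk f (u * (b * a * s1 ^ N))) = 0 := by
    simp only [map_mul, map_pow] at hsb h ⊢
    rw [pow_succ] at hsb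
    linear_combination (-1) * AdjoinRoot.mk f s * hst' - AdjoinRoot.mk f s1 ^ N *
      AdjoinRoot.mk f s * h + AdjoinRoot.mk f s1 ^ N * AdjoinRoot.mk f a * hsb
  have h2 := D.powc2 _ _ h1
  rw [sub_eq_zero] at h2
  refine D.c3 _ _ ?_ h2
  rw [rd_mul, rd_pow]
  exact cop_mul hs ht1.pow_left

theorem Dat.unique {ϖ : O} {f γ u : O[X]} (hf : f.Monic) (D : Dat O ϖ f γ u) (h : L[X])
    (a b a' b' : O[X]) (k m k' m' : ℕ) (ha : IsCoprime (rd O a) (rd O γ))
    (hb' : IsCoprime (rd O b') (rd O γ))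
    (h1 : oL O f ∣ oL O a * h * oL O u ^ k - oL O b * oL O u ^ m)
    (h2 : oL O f ∣ oL O a' * h * oL O u ^ k' - oL O b' * oL O u ^ m')
    (hlt : m' + k < m + k') : False := by
  have h3 : oL O f ∣ oL O (a' * b * u ^ (m + k') - a * b' * u ^ (m' + k)) := by
    have h4 := dvd_sub (dvd_mul_of_dvd_right h2 (oL O a * oL O u ^ k))
      (dvd_mul_of_dvd_right h1 (oL O a' * oL O u ^ k'))
    convert h4 using 1
    simp only [oL, Polynomial.map_sub, Polynomial.map_mul, Polynomial.map_pow, pow_add]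
    ring
  rw [dvd_iff O hf] at h3
  have h5 : AdjoinRoot.mk f (a' * b * u ^ (m + k')) = AdjoinRoot.mk f (a * b' * u ^ (m' + k)) :=
    AdjoinRoot.mk_eq_mk.2 h3
  obtain ⟨j, hj⟩ : ∃ j, m + k' = m' + k + (j + 1) := ⟨m + k' - (m' + k) - 1, by omega⟩
  have h6 : AdjoinRoot.mk f u ^ (m' + k) *
      (AdjoinRoot.mk f (a * b') - AdjoinRoot.mk f (u * (a' * b * u ^ j))) = 0 := by
    rw [hj] at h5
    simp only [map_mul, map_pow] at h5 ⊢
    rw [pow_add, pow_succ] at h5
    linear_combination -h5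
  have h7 := D.powc2 _ _ h6
  rw [sub_eq_zero] at h7
  refine D.c3 _ _ ?_ h7
  rw [rd_mul]
  exact cop_mul ha hb'

theorem Dat.exists_val {ϖ : O} {f γ u : O[X]} (hL : Loc L O π) (hϖ : (ϖ : L) = π)
    (hf : f.Monic) (hirr : Irreducible (rd O γ)) (D : Dat O ϖ f γ u) (h : L[X])
    (hc : IsCoprime h (oL O f)) :
    ∃ (a b : O[X]) (k m : ℕ), IsCoprime (rd O a) (rd O γ) ∧ IsCoprime (rd O b) (rd O γ) ∧
      oL O f ∣ oL O a * h * oL O u ^ k - oL O b * oL O u ^ m := by
  obtain ⟨N, p, hp⟩ := clear hL h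
  obtain ⟨x, y, hxy⟩ := hc
  obtain ⟨M, q, hq⟩ := clear hL x
  have hCϖ : ∀ n : ℕ, oL O (C ϖ ^ n) = C (π ^ n) := by
    intro n
    simp only [oL, Polynomial.map_pow, Polynomial.map_C]
    have : (algebraMap O L) ϖ = π := hϖ
    rw [this, C_pow]
  have h1 : AdjoinRoot.mk f (p * q) = AdjoinRoot.mk f (C ϖ) ^ (N + M) := by
    rw [← map_pow, AdjoinRoot.mk_eq_mk, ← dvd_iff O hf]
    have h2 : oL O (p * q - C ϖ ^ (N + M)) = oL O f * (-(C (π ^ (N + M)) * y)) := by
      have h3 := hCϖ (N + M)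
      simp only [oL, Polynomial.map_sub, Polynomial.map_mul] at h3 hp hq ⊢
      rw [h3, ← hp, ← hq, pow_add, C_mul]
      linear_combination (C (π ^ N) * C (π ^ M)) * hxy
    rw [h2]
    exact dvd_mul_right _ _
  obtain ⟨s, b, m, hs, hb, hsb⟩ := D.exists_order hirr p q (N + M) h1
  obtain ⟨e, s1, t1, hs1, ht1, hst⟩ := D.c4
  refine ⟨s * t1 ^ N, s1 ^ N * b, e * N, m, ?_, ?_, ?_⟩
  · rw [rd_mul, rd_pow]; exact cop_mul hs ht1.pow_left
  · rw [rd_mul, rd_pow]; exact cop_mul hs1.pow_left hb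
  · have h4 : oL O f ∣ oL O s * oL O p - oL O b * oL O u ^ m := by
      have := Polynomial.map_dvd (algebraMap O L) (AdjoinRoot.mk_eq_mk.1 hsb)
      simpa only [oL, Polynomial.map_sub, Polynomial.map_mul, Polynomial.map_pow] using this
    have h5 : oL O f ∣ oL O s1 ^ N * C (π ^ N) - oL O t1 ^ N * oL O u ^ (e * N) := by
      have h6 : AdjoinRoot.mk f (s1 ^ N * C ϖ ^ N) = AdjoinRoot.mk f (t1 ^ N * u ^ (e * N)) := by
        simp only [map_mul, map_pow] at hst ⊢
        rw [← mul_pow, hst, mul_pow, pow_mul]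
      have h7 := Polynomial.map_dvd (algebraMap O L) (AdjoinRoot.mk_eq_mk.1 h6)
      have h8 := hCϖ N
      simp only [oL, Polynomial.map_sub, Polynomial.map_mul, Polynomial.map_pow] at h7 h8 ⊢
      rw [h8] at h7
      exact h7
    have h9 := dvd_sub (dvd_mul_of_dvd_right h4 (oL O s1 ^ N))
      (dvd_mul_of_dvd_right h5 (oL O s * h))
    convert h9 using 1
    rw [← hp]
    simp only [oL, Polynomial.map_mul, Polynomial.map_pow]
    ring

end Core

end EVZ

theorem ev0 : EV0Stmt := by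
  intro L _ O π hL ϖ f γ hϖ hf hγ hirr hdvd hns
  have D := EVZ.dat hL ϖ hϖ f γ hf hγ hirr hdvd hns
  refine ⟨fun h hc => ?_, fun h n n' h1 h2 => ?_⟩
  · obtain ⟨a, b, k, m, ha, hb, hab⟩ := D.exists_val hL hϖ hf hirr h hc
    exact ⟨(m : ℤ) - k, a, b, k, m, ha, hb, rfl, hab⟩
  · obtain ⟨a, b, k, m, ha, hb, hn, hab⟩ := h1
    obtain ⟨a', b', k', m', ha', hb', hn', hab'⟩ := h2
    rcases lt_trichotomy n n' with hlt | heq | hgt
    · exact (D.unique hf h a' b' a b k' m' k m ha' hb hab' hab (by omega)).elim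
    · exact heq
    · exact (D.unique hf h a b a' b' k m k' m' ha hb' hab hab' (by omega)).elim

end Pool.HYP
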