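import Pool.Agent.H41.HYP.S4

/-!
# HYP, row BAD: few polynomials have a bad class
-/

set_option autoImplicit false

namespace Pool.HYP

open Polynomial Matrix Pool.AVS Filter

namespace BDZ

theorem three_le (F : Type) [Field F] [Finite F] (h2 : (2 : F) ≠ 0) : 3 ≤ Nat.card F := by
  have h1 : 1 < Nat.card F := Finite.one_lt_card
  rcases Nat.lt_or_ge 2 (Nat.card F) with h | h
  · exact h
  · exfalso
    have h3 : Nat.card F = 2 := by omega
    have := Fintype.ofFinite F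
    have h4 : ((Fintype.card F : ℕ) : F) = 0 := FiniteField.cast_card_eq_zero F
    rw [← Nat.card_eq_fintype_card, h3] at h4
    exact h2 (by exact_mod_cast h4)

theorem growth (Q : ℝ) (hQ : 1 < Q) (g d : ℕ) (K : ℝ) : ∃ h₀ : ℕ, d ≤ h₀ ∧ ∀ h : ℕ, h₀ ≤ h →
    K * ((g * h + 1 : ℕ) : ℝ) ^ g ≤ Q ^ ((h - d) / 2) := by
  have ht := tendsto_pow_const_div_const_pow_of_one_lt g hQ
  set M : ℝ := ((g * (d + 3) + 1 : ℕ) : ℝ) with hM
  have hMpos : 0 < M := by rw [hM]; positivity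
  have hε : 0 < 1 / ((|K| + 1) * M ^ g) := by positivity
  have hev := (ht.eventually_lt_const hε)
  obtain ⟨j₀, hj₀⟩ := Filter.eventually_atTop.1 hev
  refine ⟨d + 2 * (j₀ + 1), by omega, fun h hh => ?_⟩
  set j := (h - d) / 2 with hj
  have hj1 : j₀ + 1 ≤ j := by omega
  have hle : h ≤ d + 2 * j + 1 := by omega
  have h1 : (g * h + 1 : ℕ) ≤ (g * (d + 3) + 1) * j := by
    have hjpos : 1 ≤ j := by omega
    have h2 : g * h ≤ g * (d + 2 * j + 1) := Nat.mul_le_mul_left _ hle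
    have h3 : g * (d + 2 * j + 1) + 1 ≤ (g * (d + 3) + 1) * j := by
      nlinarith [Nat.zero_le g, Nat.zero_le d, Nat.mul_le_mul_left (g * d) hjpos,
        Nat.mul_le_mul_left g hjpos]
    omega
  have h2 := hj₀ j (by omega)
  have hQj : 0 < Q ^ j := pow_pos (by linarith) _
  have h3 : ((g * h + 1 : ℕ) : ℝ) ^ g ≤ (M * j) ^ g := by
    apply pow_le_pow_left₀ (by positivity)
    rw [hM]
    exact_mod_cast h1
  have h4 : (j : ℝ) ^ g * ((|K| + 1) * M ^ g) < Q ^ j := by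
    rw [div_lt_div_iff₀ hQj (by positivity)] at h2
    linarith
  calc K * ((g * h + 1 : ℕ) : ℝ) ^ g ≤ (|K| + 1) * ((g * h + 1 : ℕ) : ℝ) ^ g := by
        apply mul_le_mul_of_nonneg_right _ (by positivity)
        linarith [le_abs_self K]
    _ ≤ (|K| + 1) * (M * j) ^ g := by
        apply mul_le_mul_of_nonneg_left h3 (by positivity)
    _ = (j : ℝ) ^ g * ((|K| + 1) * M ^ g) := by rw [mul_pow]; ring
    _ ≤ Q ^ j := h4.le

theorem alw_le {g : ℕ} {h : ℕ} {μ : Fin g → ℕ} (ha : Alw h μ) (i : Fin g) : μ i ≤ g * h := by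
  obtain ⟨h1, h2⟩ := ha
  have key : ∀ n : ℕ, ∀ i : Fin g, (i : ℕ) + 1 + n = g → μ i ≤ (n + 1) * h := by
    intro n
    induction n with
    | zero =>
      intro i hi
      have := h1 i (by omega)
      omega
    | succ n ih =>
      intro i hi
      have hlt : (i : ℕ) + 1 < g := by omega
      have h3 := ih ⟨(i : ℕ) + 1, hlt⟩ (by simp; omega)
      have h4 := h2 i ⟨(i : ℕ) + 1, hlt⟩ rfl
      have : (n + 1 + 1) * h = (n + 1) * h + h := by ring
      omega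
  have h3 := key (g - 1 - i) i (by omega)
  refine h3.trans (Nat.mul_le_mul_right _ (by omega))

end BDZ

theorem bad (hkey : KEYStmt) (hcta : CTAStmt) (hct1 : CT1Stmt) (hct2 : CT2Stmt)
    (hctt : CTTStmt) (hctm : CTMStmt) (hphi : PHIStmt) (hexpo : EXPOStmt)
    (hfamc : FAMCStmt) (hgeo : GEOStmt) : BADStmt := by
  classical
  intro F _ _ h2 g hg
  set q := Nat.card F with hq
  have hq3 : 3 ≤ q := BDZ.three_le F h2
  set c := (2 * g + 1) * (g + 1) with hc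
  refine ⟨64 * 2 ^ g * q ^ (2 * c), fun D hD hk hP => ?_⟩
  set k := D.T.card with hkdef
  set d := D.deg with hd
  have hQ1 : (1 : ℝ) < (q : ℝ) := by exact_mod_cast (by omega : 1 < q)
  have hQ0 : (0 : ℝ) < (q : ℝ) := by linarith
  obtain ⟨h₀, hdh, hgrow⟩ := BDZ.growth (q : ℝ) hQ1 g d
    (32 * (q : ℝ) ^ (2 * c + d * (2 * g + 1)))
  refine ⟨h₀, fun h hh => ?_⟩
  obtain ⟨hfin, hfam⟩ := hfamc F g D h hD (by omega)
  have hkpow : 64 * 2 ^ g * q ^ (2 * c) ≤ 2 ^ k := hk.trans (Nat.lt_two_pow_self).le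
  -- the sets
  set Φ : ℝ := ((Fam g D h).ncard : ℝ) with hΦ
  have hΦ0 : 0 ≤ Φ := by positivity
  have hfamR : Φ * (q : ℝ) ^ (d * (2 * g + 1)) = (q : ℝ) ^ (h * c) := by
    rw [hΦ]; exact_mod_cast hfam
  have hPF : ∀ μ : Fin g → ℕ, Antitone μ →
      ((PF g D h μ).ncard : ℝ) * (q : ℝ) ^ EU μ ≤ 2 * ((PP g D h μ).ncard : ℝ) := by
    intro μ hμ
    have h3 := hct1 F h2 g D h μ hg hD hμ
    have h4 := (hct2 F g μ hμ).2
    have h5 : (PF g D h μ).ncard * q ^ EU μ ≤ 2 * (PP g D h μ).ncard :=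
      (Nat.mul_le_mul_left _ h4).trans h3
    exact_mod_cast h5
  have hexpo' : ∀ μ : Fin g → ℕ, Antitone μ →
      EG μ + EV μ ≤ EU μ + c ∧ ∑ i, μ i ≤ EV μ ∧ ES μ h = (h + 1) * c + EW μ h :=
    fun μ hμ => hexpo g h μ hμ
  -- main `μ`
  have hmain : ∀ μ : Fin g → ℕ, Antitone μ → (∀ i, 2 * μ i + d ≤ h + 1) →
      ((PF g D h μ).ncard : ℝ) ≤
        (4 * (q : ℝ) ^ (2 * c) / 2 ^ k * Φ) * ((q : ℝ) ^ (∑ i, μ i))⁻¹ := by
    intro μ hμ hm
    obtain ⟨e1, e2, -⟩ := hexpo' μ hμ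
    have h3 := hctm F h2 g D h μ hg hD hP hm
    have h3' : (2 : ℝ) ^ k * ((PP g D h μ).ncard : ℝ) * (q : ℝ) ^ (d * (2 * g + 1)) ≤
        2 * (q : ℝ) ^ (EG μ + (h + 1) * c) := by exact_mod_cast h3
    have h4 := hPF μ hμ
    -- multiply everything
    have h5 : (2 : ℝ) ^ k * ((PF g D h μ).ncard : ℝ) * (q : ℝ) ^ (d * (2 * g + 1)) *
        (q : ℝ) ^ EU μ ≤ 4 * (q : ℝ) ^ (EG μ + (h + 1) * c) := by
      have h6 : (2 : ℝ) ^ k * (q : ℝ) ^ (d * (2 * g + 1)) *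
          (((PF g D h μ).ncard : ℝ) * (q : ℝ) ^ EU μ) ≤
          (2 : ℝ) ^ k * (q : ℝ) ^ (d * (2 * g + 1)) * (2 * ((PP g D h μ).ncard : ℝ)) :=
        mul_le_mul_of_nonneg_left h4 (by positivity)
      linarith
    have h7 : (q : ℝ) ^ (EG μ + (h + 1) * c) * (q : ℝ) ^ (∑ i, μ i) ≤
        (q : ℝ) ^ EU μ * (q : ℝ) ^ (2 * c) * (q : ℝ) ^ (h * c) := by
      rw [← pow_add, ← pow_add, ← pow_add]
      apply pow_le_pow_right₀ hQ1.le
      have : (h + 1) * c = h * c + c := by ring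
      omega
    have h8 : (2 : ℝ) ^ k * ((PF g D h μ).ncard : ℝ) * (q : ℝ) ^ (d * (2 * g + 1)) *
        (q : ℝ) ^ EU μ * (q : ℝ) ^ (∑ i, μ i) ≤
        4 * ((q : ℝ) ^ EU μ * (q : ℝ) ^ (2 * c) * (Φ * (q : ℝ) ^ (d * (2 * g + 1)))) := by
      rw [hfamR]
      calc _ ≤ 4 * (q : ℝ) ^ (EG μ + (h + 1) * c) * (q : ℝ) ^ (∑ i, μ i) :=
            mul_le_mul_of_nonneg_right h5 (by positivity)
        _ = 4 * ((q : ℝ) ^ (EG μ + (h + 1) * c) * (q : ℝ) ^ (∑ i, μ i)) := by ring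
        _ ≤ _ := by linarith
    have hA : (0 : ℝ) < (q : ℝ) ^ (d * (2 * g + 1)) * (q : ℝ) ^ EU μ := by positivity
    have h9 : (2 : ℝ) ^ k * ((PF g D h μ).ncard : ℝ) * (q : ℝ) ^ (∑ i, μ i) ≤
        4 * (q : ℝ) ^ (2 * c) * Φ := by
      refine le_of_mul_le_mul_right ?_ hA
      nlinarith [h8]
    have hB : (0 : ℝ) < (2 : ℝ) ^ k := by positivity
    have hC : (0 : ℝ) < (q : ℝ) ^ (∑ i, μ i) := by positivity
    rw [← div_eq_mul_inv, le_div_iff₀ hC, div_mul_eq_mul_div, le_div_iff₀ hB]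
    nlinarith [h9]
  -- the other `μ`
  have hother : ∀ μ : Fin g → ℕ, Antitone μ → Alw h μ → (¬ ∀ i, 2 * μ i + d ≤ h + 1) →
      ((PF g D h μ).ncard : ℝ) ≤
        2 * (q : ℝ) ^ (2 * c + d * (2 * g + 1)) * Φ / (q : ℝ) ^ ((h - d) / 2) := by
    intro μ hμ halw hno
    push Not at hno
    obtain ⟨i, hi⟩ := hno
    obtain ⟨e1, e2, e3⟩ := hexpo' μ hμ
    have h3 := (hctt F g D h μ).2
    have h3' : ((PP g D h μ).ncard : ℝ) ≤ (q : ℝ) ^ (EG μ + ES μ h) := by exact_mod_cast h3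
    have h4 := hPF μ hμ
    set m := (h - d) / 2 with hm
    have h5 := hphi g h μ hμ halw i m (by omega) (by omega)
    have h6 : (q : ℝ) ^ (EG μ + ES μ h) * (q : ℝ) ^ m ≤
        (q : ℝ) ^ EU μ * (q : ℝ) ^ (2 * c) * (q : ℝ) ^ (h * c) := by
      rw [← pow_add, ← pow_add, ← pow_add]
      apply pow_le_pow_right₀ hQ1.le
      have : (h + 1) * c = h * c + c := by ring
      omega
    have hE : (0 : ℝ) < (q : ℝ) ^ EU μ := by positivity
    have hM : (0 : ℝ) < (q : ℝ) ^ m := by positivity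
    rw [le_div_iff₀ hM]
    refine le_of_mul_le_mul_right ?_ hE
    calc ((PF g D h μ).ncard : ℝ) * (q : ℝ) ^ m * (q : ℝ) ^ EU μ
        = ((PF g D h μ).ncard : ℝ) * (q : ℝ) ^ EU μ * (q : ℝ) ^ m := by ring
      _ ≤ 2 * (q : ℝ) ^ (EG μ + ES μ h) * (q : ℝ) ^ m := by
          apply mul_le_mul_of_nonneg_right _ hM.le
          linarith
      _ ≤ 2 * ((q : ℝ) ^ EU μ * (q : ℝ) ^ (2 * c) * (q : ℝ) ^ (h * c)) := by linarith
      _ = 2 * (q : ℝ) ^ (2 * c + d * (2 * g + 1)) * Φ * (q : ℝ) ^ EU μ := by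
          rw [← hfamR, pow_add]; ring
  -- the index sets
  let A : Finset (Fin g → ℕ) := (Fintype.piFinset (fun _ : Fin g => Finset.range (g * h + 1))).filter
    (fun μ => Antitone μ ∧ Alw h μ)
  have hAcard : (A.card : ℝ) ≤ ((g * h + 1 : ℕ) : ℝ) ^ g := by
    have h3 : A.card ≤ (Fintype.piFinset (fun _ : Fin g => Finset.range (g * h + 1))).card :=
      Finset.card_filter_le _ _
    rw [Fintype.card_piFinset] at h3
    simp only [Finset.card_range, Finset.prod_const, Finset.card_univ, Fintype.card_fin] at h3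
    exact_mod_cast h3
  have hPFfin : ∀ μ, (PF g D h μ).Finite := fun μ => hfin.subset (fun f hf => hf.1)
  have hbad : {f ∈ Fam g D h | Bad D.T f} ⊆ ⋃ μ ∈ A, PF g D h μ := by
    rintro f ⟨hf, hfb⟩
    obtain ⟨μ, G, S, hμ, hPM⟩ := hkey F h2 g D h hg hD f hf hfb
    have hmem : f ∈ PF g D h μ := ⟨hf, G, S, hPM⟩
    have halw := hcta F g D h μ hg hD hμ ⟨f, hmem⟩
    refine Set.mem_iUnion₂.2 ⟨μ, ?_, hmem⟩
    refine Finset.mem_filter.2 ⟨?_, hμ, halw⟩
    rw [Fintype.mem_piFinset]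
    intro i
    rw [Finset.mem_range]
    have := BDZ.alw_le halw i
    omega
  have hcard : ({f ∈ Fam g D h | Bad D.T f}.ncard : ℝ) ≤ ∑ μ ∈ A, ((PF g D h μ).ncard : ℝ) := by
    have h3 : {f ∈ Fam g D h | Bad D.T f}.ncard ≤ ∑ μ ∈ A, (PF g D h μ).ncard := by
      have hUfin : (⋃ μ ∈ A, PF g D h μ).Finite :=
        A.finite_toSet.biUnion (fun μ _ => hPFfin μ)
      refine (Set.ncard_le_ncard hbad hUfin).trans ?_
      exact Finset.set_ncard_biUnion_le A _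
    exact_mod_cast h3
  -- split
  have hsplit : ∑ μ ∈ A, ((PF g D h μ).ncard : ℝ) ≤ Φ / 16 + Φ / 16 := by
    rw [← Finset.sum_filter_add_sum_filter_not A (fun μ => ∀ i, 2 * μ i + d ≤ h + 1)]
    apply add_le_add
    · calc ∑ μ ∈ A.filter (fun μ => ∀ i, 2 * μ i + d ≤ h + 1), ((PF g D h μ).ncard : ℝ)
          ≤ ∑ μ ∈ A.filter (fun μ => ∀ i, 2 * μ i + d ≤ h + 1),
            (4 * (q : ℝ) ^ (2 * c) / 2 ^ k * Φ) * ((q : ℝ) ^ (∑ i, μ i))⁻¹ := by
            apply Finset.sum_le_sum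
            intro μ hμ
            rw [Finset.mem_filter] at hμ
            exact hmain μ (Finset.mem_filter.1 hμ.1).2.1 hμ.2
        _ = (4 * (q : ℝ) ^ (2 * c) / 2 ^ k * Φ) *
            ∑ μ ∈ A.filter (fun μ => ∀ i, 2 * μ i + d ≤ h + 1),
              ((q : ℝ) ^ (∑ i, μ i))⁻¹ := by rw [Finset.mul_sum]
        _ ≤ (4 * (q : ℝ) ^ (2 * c) / 2 ^ k * Φ) * 2 ^ g := by
            apply mul_le_mul_of_nonneg_left (hgeo g q hq3 _) (by positivity)
        _ ≤ Φ / 16 := by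
            have hk' : (64 : ℝ) * 2 ^ g * (q : ℝ) ^ (2 * c) ≤ 2 ^ k := by exact_mod_cast hkpow
            have hB : (0 : ℝ) < (2 : ℝ) ^ k := by positivity
            have h3 : 4 * (q : ℝ) ^ (2 * c) / 2 ^ k * 2 ^ g ≤ 1 / 16 := by
              rw [div_mul_eq_mul_div, div_le_iff₀ hB]
              nlinarith [hk']
            nlinarith [h3]
    · calc ∑ μ ∈ A.filter (fun μ => ¬ ∀ i, 2 * μ i + d ≤ h + 1), ((PF g D h μ).ncard : ℝ)
          ≤ ∑ μ ∈ A.filter (fun μ => ¬ ∀ i, 2 * μ i + d ≤ h + 1),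
            (2 * (q : ℝ) ^ (2 * c + d * (2 * g + 1)) * Φ / (q : ℝ) ^ ((h - d) / 2)) := by
            apply Finset.sum_le_sum
            intro μ hμ
            rw [Finset.mem_filter] at hμ
            exact hother μ (Finset.mem_filter.1 hμ.1).2.1 (Finset.mem_filter.1 hμ.1).2.2 hμ.2
        _ = ((A.filter (fun μ => ¬ ∀ i, 2 * μ i + d ≤ h + 1)).card : ℝ) *
            (2 * (q : ℝ) ^ (2 * c + d * (2 * g + 1)) * Φ / (q : ℝ) ^ ((h - d) / 2)) := by
            rw [Finset.sum_const, nsmul_eq_mul]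
        _ ≤ (((g * h + 1 : ℕ) : ℝ) ^ g) *
            (2 * (q : ℝ) ^ (2 * c + d * (2 * g + 1)) * Φ / (q : ℝ) ^ ((h - d) / 2)) := by
            apply mul_le_mul_of_nonneg_right _ (by positivity)
            refine le_trans ?_ hAcard
            exact_mod_cast Finset.card_filter_le _ _
        _ ≤ Φ / 16 := by
            have h3 := hgrow h hh
            have hB : (0 : ℝ) < (q : ℝ) ^ ((h - d) / 2) := by positivity
            have h4 : (((g * h + 1 : ℕ) : ℝ) ^ g) *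
                (2 * (q : ℝ) ^ (2 * c + d * (2 * g + 1))) / (q : ℝ) ^ ((h - d) / 2) ≤ 1 / 16 := by
              rw [div_le_iff₀ hB]
              nlinarith [h3]
            calc _ = Φ * ((((g * h + 1 : ℕ) : ℝ) ^ g) *
                (2 * (q : ℝ) ^ (2 * c + d * (2 * g + 1))) / (q : ℝ) ^ ((h - d) / 2)) := by ring
              _ ≤ Φ * (1 / 16) := mul_le_mul_of_nonneg_left h4 hΦ0
              _ = Φ / 16 := by ring
  have hfinal : (8 : ℝ) * ({f ∈ Fam g D h | Bad D.T f}.ncard : ℝ) ≤ Φ := by linarith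
  rw [hΦ] at hfinal
  exact_mod_cast hfinal

end Pool.HYP
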